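import Pool.Agent.V5helper92.VC.Reg
import Pool.Agent.N190.Lin.Main
import Pool.Agent.H447R3.WtB

/-!
# The conjecture B and the vanishing cohomology of linear sections
-/

set_option autoImplicit false

open CategoryTheory AlgebraicGeometry Finset

universe u v

namespace Pool.Agent.V5helper92.VC

open Pool.Agent.H914 Pool.Agent.H447 Pool.Agent.W534 Pool.Agent.W537 Pool.Agent.N190.Lin VarClass Obj
  WeilCohomology

section Abs

variable {K : Type*} [Field K] {V : Type*} [AddCommGroup V] [Module K V]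
  {gr : ℕ → Submodule K V} {n : ℕ} {L Lam : Module.End K V}

lemma lam_pow_string (hLam : IsLam gr n L Lam) {i : ℕ} (hi : i ≤ n) {a : V} (ha : a ∈ gr i)
    (hp : (L ^ (n - i + 1)) a = 0) (j c : ℕ) (hc : c + j ≤ n - i) :
    (Lam ^ c) ((L ^ (c + j)) a) = (L ^ j) a := by
  induction c with
  | zero => simp
  | succ c ih =>
    rw [pow_succ, Module.End.mul_apply, show c + 1 + j = (c + j) + 1 by ring,
      (hLam i hi a ha hp).2 (c + j) (by omega), ih (by omega)]

lemma lam_regular (h : DirectSum.IsInternal gr) (hL : IsHom gr 2 L)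
    (hbd : ∀ i, 2 * n + 1 ≤ i → gr i = ⊥) (hHL : HardLef gr n L) (hLam : IsLam gr n L Lam)
    (c : ℕ) (x : V) : (L ^ c) ((Lam ^ c) ((L ^ c) x)) = (L ^ c) x := by
  refine lef_induction' h hL hbd hHL (p := fun x => (L ^ c) ((Lam ^ c) ((L ^ c) x)) = (L ^ c) x)
    ?_ ?_ x
  · intro a b ha hb
    simp only [map_add, ha, hb]
  · intro i hi a ha hp j
    rw [← Module.End.mul_apply (L ^ c) (L ^ j), ← pow_add]
    by_cases hc : c + j ≤ n - i
    · rw [lam_pow_string hLam hi ha hp j c hc, ← Module.End.mul_apply, ← pow_add]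
    · rw [L_pow_gt hp (by omega), map_zero, map_zero]

end Abs

variable {k : Type u} [Field k] {𝒱 : VarClass k} {ops : CycleOps 𝒱}
  {W : WeilCohomology.{u, v} ops} {X Y Z : 𝒱.Obj} {D : X.Cycles} {i : Y ⟶ X}

/-- The conjecture B implies the regularity of all powers. -/
theorem lefRegular_of_B (hD : X.IsCyc 1 D) (hHL : HardLefschetz W X D) (hB : LefschetzB W X D)
    {c : ℕ} (hc : c ≤ X.dim) : LefRegular W X D c := by
  obtain ⟨Φ, hΦ, hLam⟩ := lefschetzB_iff_rop.1 hB
  have h1 : ROp W X (-(c : ℤ)) (Φ ^ c) := rop_opAlg.cast (rop_opAlg.pow hΦ c) (by ring)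
  obtain ⟨w, hw, hwc⟩ := exists_of_rop (p := X.dim - c) (by push_cast [hc]; ring) h1
  refine ⟨w, hw, fun x => ?_⟩
  have h2 : W.cl X D ^ c * W.corr (W.cl _ w) (W.cl X D ^ c * x) = W.cl X D ^ c * x := by
    rw [hwc, pow_mul_eq, pow_mul_eq]
    exact lam_regular (W.isInternal X) (isHom_mulLeft W hD) (hbdW W) hHL hLam c x
  exact h2

/-- The projector on the middle cohomology of one section. -/
theorem spanInjective_of_middle (hs : IsLinearSection W D i) (hD : X.IsCyc 1 D)
    (hHL : HardLefschetz W X D) {w : (X.prod X).Cycles} (hw : (X.prod X).IsCyc Y.dim w)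
    (h : RestrictsToMiddle W i w) :
    SpanInjective W X (X.dim - Y.dim) := by
  have hle := hs.le
  refine ⟨W.cl _ w, Submodule.subset_span ⟨Y.dim, by push_cast [hle]; ring, w, hw, rfl⟩, ?_⟩
  intro x hx h0
  have h1 := (hHL Y.dim hle).2 x (by
    rwa [show 2 * X.dim - Y.dim = X.dim + (X.dim - Y.dim) by omega])
  obtain ⟨a, ha, rfl⟩ := h1
  have h2 := middle_inv (hs.lsec hD hHL) (Γ := W.corr (W.cl _ w)) (corr_deg hle hw) (by
    intro x hx
    have h3 : W.corr (W.cl _ (ops.pull (sq i) w)) (W.map i x) = W.map i x := h.2 x hx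
    rwa [corr_pull_sq hle] at h3) a ha
  rw [h0] at h2
  rw [← h2, map_zero]

/-- **One degree.** A cycle inverts the power of the Lefschetz operator on `H^r(X)`, `r = dim Y`, if
and only if its restriction to `Y × Y` acts on the middle cohomology of `Y` as the projector along the
vanishing cohomology. -/
theorem inverts_iff_middle (hs : IsLinearSection W D i) (hD : X.IsCyc 1 D)
    (hHL : HardLefschetz W X D) {w : (X.prod X).Cycles} (hw : (X.prod X).IsCyc Y.dim w) :
    InvertsLefschetz W X D Y.dim w ↔ RestrictsToMiddle W i w := by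
  have hle := hs.le
  have h := hs.lsec hD hHL
  rw [inverts_iff hD W hle, show X.dim - (X.dim - Y.dim) = Y.dim by omega]
  constructor
  · rintro ⟨-, h1⟩
    refine ⟨fun v hv => corr_vanishing hle w hv, fun x hx => ?_⟩
    have h3 : W.corr (W.cl _ (ops.pull (sq i) w)) (W.map i x) = W.map i x := by
      rw [corr_pull_sq hle]
      have h2 : W.push i (W.map i x) = (LinearMap.mulLeft W.K (W.cl X D) ^ (X.dim - Y.dim)) x :=
        h.γι x
      rw [h2, h1 x hx]
    exact h3
  · intro h1
    refine ⟨hw, middle_inv h (Γ := W.corr (W.cl _ w)) (corr_deg hle hw) ?_⟩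
    intro x hx
    have h3 : W.corr (W.cl _ (ops.pull (sq i) w)) (W.map i x) = W.map i x := h1.2 x hx
    rwa [corr_pull_sq hle] at h3

/-- **One degree and a general section.** -/
theorem inverts_iff_general (hs : IsLinearSection W D i) (hD : X.IsCyc 1 D)
    (hHL : HardLefschetz W X D) (hg : IsGeneral W i) :
    (∃ w, InvertsLefschetz W X D Y.dim w) ↔ MiddleAlgebraic W i := by
  constructor
  · rintro ⟨w, hw⟩
    exact ⟨_, ops.pull_mem _ hw.1, (inverts_iff_middle hs hD hHL hw.1).1 hw⟩
  · rintro ⟨z, hz, h1⟩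
    obtain ⟨w, hw, h2⟩ := general_restr hs.le hg hz h1.1
    refine ⟨w, (inverts_iff_middle hs hD hHL hw).2 ?_⟩
    unfold RestrictsToMiddle
    rwa [h2]

lemma spanInjective_zero (W : WeilCohomology.{u, v} ops) (X : 𝒱.Obj) : SpanInjective W X 0 := by
  refine ⟨W.cl _ (ops.push (Obj.diag X) X.V.fundCycle), Submodule.subset_span
    ⟨X.dim, by simp, _, ops.push_mem _ X.V.fundCycle_mem (by rw [dim_prod, zero_add]), rfl⟩, ?_⟩
  intro x _ h0
  rwa [W.cl_push, W.corr_diag, W.cl_fund, one_mul] at h0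

lemma spanInjective_top (hD : X.IsCyc 1 D) (hHL : HardLefschetz W X D) :
    SpanInjective W X X.dim := by
  obtain ⟨θ, hθ, h⟩ := kinvIn_zero hD hHL
  obtain ⟨γ, hγ, rfl⟩ := mem_KOp_iff.1 hθ
  refine ⟨γ, by simpa [sub_eq_add_neg] using hγ, ?_⟩
  intro x hx h0
  obtain ⟨a, ha, rfl⟩ := (hHL 0 (Nat.zero_le _)).2 x (by
    rwa [show 2 * X.dim - 0 = X.dim + X.dim by omega])
  have h1 := h a ha
  rw [h0] at h1
  rw [← h1, map_zero]

section Main

variable {Y : ℕ → 𝒱.Obj}

/-- **One degree, named form.** -/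
theorem one_degree (hD : X.IsCyc 1 D) (hHL : HardLefschetz W X D) (i : ∀ r, Y r ⟶ X)
    (hs : AreSections W D i) :
    ForEach X fun r => ∀ w, (X.prod X).IsCyc r w →
      (InvertsLefschetz W X D r w ↔ RestrictsToMiddle W (i r) w) := by
  intro r hr w hw
  obtain ⟨hY, h⟩ := hs r hr
  have h1 := inverts_iff_middle h hD hHL (w := w) (by rwa [hY])
  rwa [hY] at h1

/-- **The conjecture B and restrictions to linear sections.** -/
theorem main_tfae (hD : X.IsCyc 1 D) (hHL : HardLefschetz W X D) (i : ∀ r, Y r ⟶ X)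
    (hs : AreSections W D i) :
    List.TFAE [
      LefschetzB W X D,
      ∀ c ≤ X.dim, LefRegular W X D c,
      ForEach X fun r => FixedRestricted W (i r),
      ForEach X fun r => MiddleRestricted W (i r)] := by
  tfae_have 1 → 2 := fun hB c hc => lefRegular_of_B hD hHL hB hc
  tfae_have 2 → 3 := by
    intro h r hr
    exact (fixed_iff (hs r hr).2 hD hHL).1 (h _ (Nat.sub_le _ _))
  tfae_have 3 → 4 := by
    intro h r hr
    obtain ⟨w, hw, h1⟩ := h r hr
    exact ⟨w, hw, h1.1⟩
  tfae_have 4 → 1 := by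
    intro h
    apply ((lefschetzB_tfae hD hHL).out 2 0).1
    intro c hc
    rcases Nat.eq_zero_or_pos c with rfl | hc0
    · exact spanInjective_zero W X
    rcases hc.eq_or_lt with rfl | hcn
    · exact spanInjective_top hD hHL
    have hr : X.dim - c ∈ Set.Icc 1 (X.dim - 1) := ⟨by omega, by omega⟩
    obtain ⟨w, hw, h1⟩ := h _ hr
    have := spanInjective_of_middle (hs _ hr).2 hD hHL hw h1
    rwa [(hs _ hr).1, show X.dim - (X.dim - c) = c by omega] at this
  tfae_finish

/-- **General linear sections.** -/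
theorem general_tfae (hD : X.IsCyc 1 D) (hHL : HardLefschetz W X D) (i : ∀ r, Y r ⟶ X)
    (hs : AreSections W D i) (hg : ForEach X fun r => IsGeneral W (i r)) :
    List.TFAE [
      LefschetzB W X D,
      ForEach X fun r => FixedAlgebraic W (i r),
      ForEach X fun r => MiddleAlgebraic W (i r)] := by
  have key := main_tfae hD hHL i hs
  tfae_have 1 → 2 := by
    intro h r hr
    have h3 : ForEach X fun r => FixedRestricted W (i r) := (key.out 0 2).1 h
    obtain ⟨w, hw, h1⟩ := h3 r hr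
    exact ⟨_, ops.pull_mem _ hw, h1⟩
  tfae_have 2 → 3 := by
    intro h r hr
    obtain ⟨w, hw, h1⟩ := h r hr
    exact ⟨w, hw, h1.1⟩
  tfae_have 3 → 1 := by
    intro h
    apply (key.out 3 0).1
    intro r hr
    obtain ⟨z, hz, h1⟩ := h r hr
    obtain ⟨w, hw, h2⟩ := general_restr (hs r hr).2.le (hg r hr) hz h1.1
    refine ⟨w, hw, ?_⟩
    unfold RestrictsToMiddle
    rwa [h2]
  tfae_finish

end Main

end Pool.Agent.V5helper92.VC
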