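import Pool.Agent.V5helper92.VC.Defs
import Pool.Agent.TH720.LB.Defs

/-!
# Classes of polarized varieties with general linear sections: definitions
-/

set_option autoImplicit false

open CategoryTheory AlgebraicGeometry

universe u v

namespace Pool.Agent.V5helper92.VC

open Pool.Agent.H914 Pool.Agent.H447 Pool.Agent.W537 Pool.Agent.N190.Lin Pool.Agent.TH720.LB VarClass Obj WeilCohomology

variable {k : Type u} [Field k] {𝒱 : VarClass k} {ops : CycleOps 𝒱}

section Alg

variable {K : Type*} [Field K] {B : Type*} [AddCommGroup B] [Module K B]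

/-- `G L` is the identity on `gr j` for `j ≤ n - 2` of the same parity as `n`, and zero on
`gr (n - 1)`. -/
def SplitsStep (gr : ℕ → Submodule K B) (n : ℕ) (L G : B →ₗ[K] B) : Prop :=
  (∀ j, j + 2 ≤ n → Even (j + n) → ∀ x ∈ gr j, G (L x) = x) ∧ ∀ x ∈ gr (n - 1), G (L x) = 0

/-- `G L` is injective on `gr j` for `j ≤ n - 2` of the same parity as `n`, and nilpotent on
`gr (n - 1)`. -/
def SplitsStepWeakly (gr : ℕ → Submodule K B) (n : ℕ) (L G : B →ₗ[K] B) : Prop :=
  (∀ j, j + 2 ≤ n → Even (j + n) → ∀ x ∈ gr j, G (L x) = 0 → x = 0) ∧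
    ∀ x ∈ gr (n - 1), ∃ r : ℕ, ((G ∘ₗ L : Module.End K B) ^ r) x = 0

end Alg

/-- There is a cycle of codimension `n - 1` on `X × X`, `n = dim X`, such that the induced operator
`Γ` of degree `-2` satisfies `Γ (ξ x) = x` for `x` in `H^j(X)` for all `j ≤ n - 2` of the same parity
as `n`, and `Γ (ξ x) = 0` for `x` in `H^(n - 1)(X)`; here `ξ` is the class of `D`. -/
def StepCycle (W : WeilCohomology.{u, v} ops) (X : 𝒱.Obj) (D : X.Cycles) : Prop :=
  ∃ w, (X.prod X).IsCyc (X.dim - 1) w ∧
    SplitsStep (W.gr X) X.dim (lefPow W X D 1) (cycOp W X w)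

/-- There is a linear combination, with coefficients in the coefficient field of `W`, of cycle
classes of codimension `n - 1` on `X × X`, `n = dim X`, such that for the induced operator `Γ` the
operator `x ↦ Γ (ξ x)` is injective on `H^j(X)` for all `j ≤ n - 2` of the same parity as `n`, and
nilpotent on `H^(n - 1)(X)`; here `ξ` is the class of `D`. -/
def StepWeak (W : WeilCohomology.{u, v} ops) (X : 𝒱.Obj) (D : X.Cycles) : Prop :=
  ∃ γ ∈ spanCycles W (X.prod X) ((X.dim : ℤ) - 1),
    SplitsStepWeakly (W.gr X) X.dim (lefPow W X D 1) (W.corr γ)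

/-- `StepWeak` for all `(X, D)` with `pol X D` and `X` of odd dimension. -/
def StepOdd (W : WeilCohomology.{u, v} ops) (pol : ∀ X : 𝒱.Obj, X.Cycles → Prop) : Prop :=
  ∀ X D, pol X D → Odd X.dim → StepWeak W X D

/-- `StepWeak` for all `(X, D)` with `pol X D` and `X` of even dimension `≥ 1`. -/
def StepEven (W : WeilCohomology.{u, v} ops) (pol : ∀ X : 𝒱.Obj, X.Cycles → Prop) : Prop :=
  ∀ X D, pol X D → Even X.dim → 1 ≤ X.dim → StepWeak W X D

/-- `StepCycle` for all `(X, D)` with `pol X D` and `dim X ≥ 1`. -/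
def StepAll (W : WeilCohomology.{u, v} ops) (pol : ∀ X : 𝒱.Obj, X.Cycles → Prop) : Prop :=
  ∀ X D, pol X D → 1 ≤ X.dim → StepCycle W X D

/-- `SignRegular` for all `(X, D)` with `pol X D` and all `c ≤ dim X`. -/
def RegularAll (W : WeilCohomology.{u, v} ops) (pol : ∀ X : 𝒱.Obj, X.Cycles → Prop) : Prop :=
  ∀ X D, pol X D → ∀ c ≤ X.dim, SignRegular W X D c

section Alg

variable {K : Type*} [Field K] {A : Type*} [Ring A] [Algebra K A]

/-- The powers of `a` span the algebra `A`, and `a ^ n` has trace `1`. -/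
def SpannedByPowers (tr : A →ₗ[K] K) (n : ℕ) (a : A) : Prop :=
  tr (a ^ n) = 1 ∧ ∀ x : A, x ∈ Submodule.span K (Set.range fun j : ℕ => a ^ j)

end Alg

/-- `pol X D` (for instance: `D` is ample) holds for some divisor `D` on every variety `X` of the
class, these divisors satisfy hard Lefschetz for `W`, and `pol` is preserved by positive multiples
and by the products with the projective line `Pr 1`; the variety `Pr m` with the divisor `h m` looks
like the projective space of dimension `m` with a hyperplane (the cohomology is spanned by the powers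
of the class of `h m`, and the top power has degree `1`). -/
structure PolClass (W : WeilCohomology.{u, v} ops) (pol : ∀ X : 𝒱.Obj, X.Cycles → Prop)
    (Pr : ℕ → 𝒱.Obj) (h : ∀ m, (Pr m).Cycles) : Prop where
  div : ∀ (X : 𝒱.Obj) (D : X.Cycles), pol X D → X.IsCyc 1 D
  hard : ∀ (X : 𝒱.Obj) (D : X.Cycles), pol X D → HardLefschetz W X D
  exists_div : ∀ X : 𝒱.Obj, ∃ D, pol X D
  nsmul : ∀ (X : 𝒱.Obj) (D : X.Cycles), pol X D → ∀ m : ℕ, 0 < m → pol X (m • D)
  dim_pr : ∀ m, (Pr m).dim = m
  div_pr : ∀ m, (Pr m).IsCyc 1 (h m)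
  span_pr : ∀ m, SpannedByPowers (W.tr (Pr m)) (Pr m).dim (W.cl (Pr m) (h m))
  prod : ∀ (X : 𝒱.Obj) (D : X.Cycles), pol X D → pol ((Pr 1).prod X) (sumDiv ops (h 1) D)

/-- For `pol X D` and `1 ≤ r < dim X` some positive multiple of `D` has a linear section of
dimension `r` which behaves like a very general one. -/
def HasSections (W : WeilCohomology.{u, v} ops) (pol : ∀ X : 𝒱.Obj, X.Cycles → Prop) : Prop :=
  ∀ (X : 𝒱.Obj) (D : X.Cycles), pol X D → ∀ r, 1 ≤ r → r < X.dim →
    ∃ m : ℕ, 0 < m ∧ ∃ (Y : 𝒱.Obj) (i : Y ⟶ X),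
      Y.dim = r ∧ IsLinearSection W (m • D) i ∧ IsGeneral W i

end Pool.Agent.V5helper92.VC
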