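import Pool.Agent.V5helper92.VC.CMain
import Pool.Agent.V5helper92.VC.CDefs
import Pool.Agent.TH720.MP.Main

/-!
# The sign conjecture in a class of varieties
-/

set_option autoImplicit false

open CategoryTheory AlgebraicGeometry Finset

universe u v

namespace Pool.Agent.V5helper92.VC

open Pool.Agent.H914 Pool.Agent.H447 Pool.Agent.W534 Pool.Agent.W537 Pool.Agent.N190.Lin Pool.Agent.TH720.LB
  Pool.Agent.TH720.MP Pool.Agent.TH133.PW VarClass Obj WeilCohomology

section Lin

variable {K V : Type*} [Field K] [AddCommGroup V] [Module K V] {gr : ℕ → Submodule K V}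

/-- A polynomial which separates the degrees on which an operator is injective from those on which
it is nilpotent. -/
theorem sep_poly [FiniteDimensional K V] {φ : Module.End K V}
    (hgr : ∀ i, ∀ y ∈ gr i, φ y ∈ gr i) {S T : ℕ → Prop}
    (hinj : ∀ i, S i → ∀ y ∈ gr i, φ y = 0 → y = 0)
    (hnil : ∀ i, T i → ∀ y ∈ gr i, ∃ r : ℕ, (φ ^ r) y = 0) :
    ∃ g : Polynomial K, (∀ i, S i → ∀ y ∈ gr i, Polynomial.aeval φ g y = y) ∧
      ∀ i, T i → ∀ y ∈ gr i, Polynomial.aeval φ g y = 0 := by
  set N := Module.finrank K V with hN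
  have hp0 : minpoly K φ ≠ 0 := minpoly.ne_zero (Algebra.IsIntegral.isIntegral φ)
  obtain ⟨q, hq, hnd⟩ := Polynomial.exists_eq_pow_rootMultiplicity_mul_and_not_dvd
    (minpoly K φ) hp0 0
  set a := Polynomial.rootMultiplicity 0 (minpoly K φ) with ha
  rw [map_zero, sub_zero] at hq hnd
  have hcop : IsCoprime (Polynomial.X ^ N) q :=
    IsCoprime.pow_left ((Polynomial.irreducible_X.coprime_iff_not_dvd).2 hnd)
  obtain ⟨s, t, hst⟩ := hcop
  have hpow : ∀ i, S i → ∀ r : ℕ, ∀ y ∈ gr i, (φ ^ r) y = 0 → y = 0 := by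
    intro i hi r
    induction r with
    | zero => intro y _ hy; simpa using hy
    | succ r ih =>
      intro y hy hy0
      rw [pow_succ, Module.End.mul_apply] at hy0
      exact hinj i hi y hy (ih _ (hgr i _ hy) hy0)
  have hqy : ∀ i, S i → ∀ y ∈ gr i, Polynomial.aeval φ q y = 0 := by
    intro i hi y hy
    have h2 : Polynomial.aeval φ (minpoly K φ) y = 0 := by
      rw [minpoly.aeval, LinearMap.zero_apply]
    rw [hq, map_mul, map_pow, Polynomial.aeval_X, Module.End.mul_apply] at h2
    exact hpow i hi a _ (aeval_stable (fun y hy => hgr i y hy) q y hy) h2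
  refine ⟨s * Polynomial.X ^ N, ?_, ?_⟩
  · intro i hi y hy
    have h3 : Polynomial.aeval φ (s * Polynomial.X ^ N + t * q) y = y := by
      rw [hst, map_one, Module.End.one_apply]
    rw [map_add, LinearMap.add_apply, map_mul (Polynomial.aeval φ) t q, Module.End.mul_apply,
      hqy i hi y hy, map_zero, add_zero] at h3
    exact h3
  · intro i hi y hy
    obtain ⟨r, hr⟩ := hnil i hi y hy
    have h4 : (φ ^ N) y = 0 := by
      have := Module.End.ker_pow_le_ker_pow_finrank φ r (LinearMap.mem_ker.2 hr)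
      exact LinearMap.mem_ker.1 this
    rw [map_mul, map_pow, Polynomial.aeval_X, Module.End.mul_apply, h4, map_zero]

end Lin

variable {k : Type u} [Field k] {𝒱 : VarClass k} {ops : CycleOps 𝒱}
  {W : WeilCohomology.{u, v} ops} {X Y Z : 𝒱.Obj} {D : X.Cycles} {i : Y ⟶ X}

/-- **From one step on the product with the projective line to the middle cohomology.** -/
theorem midWeak_of_step {C X : 𝒱.Obj} (hC : C.dim = 1) {E : C.Cycles} {D : X.Cycles}
    (hE : C.IsCyc 1 E) (hdeg : W.tr C (W.cl C E) = 1) (hD : X.IsCyc 1 D)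
    (h : StepWeak W (C.prod X) (sumDiv ops E D)) :
    MidWeak W X := by
  set F : (C.prod X).Cycles := sumDiv ops E D with hF0
  have hF : F = ops.pull (fst C X) E + ops.pull (snd C X) D := rfl
  have hFc : (C.prod X).IsCyc 1 F := SmVar.IsCyc.add (ops.pull_mem _ hE) (ops.pull_mem _ hD)
  obtain ⟨γ, hγ, hinj, hnil⟩ := h
  have hdim : (C.prod X).dim = X.dim + 1 := by rw [dim_prod, hC]; ring
  set L := LinearMap.mulLeft W.K (W.cl (C.prod X) F) with hL
  have hL1 : lefPow W (C.prod X) F 1 = L := by rw [lefPow, pow_one]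
  rw [hL1] at hinj hnil
  have hLk : L ∈ KOp W (C.prod X) (C.prod X) 1 := (qop_mulLeft hFc).kop
  have hΓk : W.corr γ ∈ KOp W (C.prod X) (C.prod X) (-1) :=
    mem_KOp_iff.2 ⟨γ, by rwa [← sub_eq_add_neg], rfl⟩
  set φ : Module.End W.K (W.H (C.prod X)) := W.corr γ ∘ₗ L with hφ
  have hφk : φ ∈ KOp W (C.prod X) (C.prod X) 0 := KOp.cast (KOp.comp hΓk hLk) (by ring)
  obtain ⟨g, hg1, hg2⟩ := sep_poly (gr := W.gr (C.prod X)) (φ := φ)
    (S := fun j => j + 2 ≤ (C.prod X).dim ∧ Even (j + (C.prod X).dim))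
    (T := fun j => j = (C.prod X).dim - 1) (fun i y hy => kop_gr hφk i hy)
    (fun j hj y hy h0 => hinj j hj.1 hj.2 y hy h0)
    (fun j hj y hy => hnil y (by rwa [← hj]))
  set f := Polynomial.aeval φ g with hf
  have hfk : f ∈ KOp W (C.prod X) (C.prod X) 0 := aeval_mem kone kmul hφk g
  set T : Module.End W.K (W.H X) := W.push (snd C X) ∘ₗ L ∘ₗ f ∘ₗ
    (W.map (snd C X)).toLinearMap with hT
  have hTk : T ∈ KOp W X X 0 := by
    have := KOp.comp (qop_push (W := W) (snd C X)).kop (KOp.comp hLk (KOp.comp hfk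
      (qop_pull (W := W) (snd C X)).kop))
    exact KOp.cast this (by rw [hdim]; push_cast; ring)
  have hone : W.tr C (1 : W.H C) = 0 := W.tr_eq_zero (W.one_mem C) (by omega)
  have hpush : ∀ x : W.H X, W.push (snd C X) (L (W.map (snd C X) x)) = x := by
    intro x
    rw [hL, LinearMap.mulLeft_apply, hF, map_add, W.cl_pull, W.cl_pull, add_mul, map_add,
      push_snd, ← map_mul, hdeg, one_smul]
    have := W.push_snd (X := C) 1 (W.cl X D * x)
    rw [map_one, one_mul, hone, zero_smul] at this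
    rw [this, add_zero]
  refine ⟨1 - T, ?_, ?_, ?_⟩
  · rw [span_cycleOperators0]
    exact Submodule.sub_mem _ kone hTk
  · intro y hy h0
    have h1 : f (W.map (snd C X) y) = 0 := hg2 X.dim (by rw [hdim]; rfl) _ (W.map_mem _ hy)
    have h2 : T y = 0 := by
      have h3 : T y = W.push (snd C X) (L (f (W.map (snd C X) y))) := rfl
      rw [h3, h1, map_zero, map_zero]
    rwa [LinearMap.sub_apply, Module.End.one_apply, h2, sub_zero] at h0
  · intro j hj hpar y hy
    refine ⟨1, ?_⟩
    have h1 : f (W.map (snd C X) y) = W.map (snd C X) y := by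
      refine hg1 j ⟨by rw [hdim]; omega, ?_⟩ _ (W.map_mem _ hy)
      rw [hdim, Nat.even_iff]
      omega
    have h2 : T y = y := by
      have h3 : T y = W.push (snd C X) (L (f (W.map (snd C X) y))) := rfl
      rw [h3, h1, hpush]
    rw [pow_one, LinearMap.sub_apply, Module.End.one_apply, h2, sub_self]

/-- The one step condition from the regularity. -/
theorem stepCycle_of_regular (hD : X.IsCyc 1 D) (hHL : HardLefschetz W X D) (h1 : 1 ≤ X.dim)
    (h : SignRegular W X D 1) : StepCycle W X D := by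
  obtain ⟨w, hw, h2⟩ := signRegular_inv hD hHL h1 h
  refine ⟨w, hw, fun j hj he x hx => ?_, fun x hx => ?_⟩
  · have h3 := h2 j (by omega) x hx
    rw [if_neg (by
      rw [Nat.even_iff] at he ⊢
      omega)] at h3
    exact h3
  · have h3 := h2 (X.dim - 1) (by omega) x hx
    rw [if_pos ⟨_, rfl⟩] at h3
    exact h3

theorem stepWeak_of_cycle (h1 : 1 ≤ X.dim) (h : StepCycle W X D) : StepWeak W X D := by
  obtain ⟨w, hw, h2, h3⟩ := h
  refine ⟨W.cl _ w, Submodule.subset_span ⟨X.dim - 1, by push_cast [h1]; ring, w, hw, rfl⟩,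
    fun j hj he x hx h0 => ?_, fun x hx => ⟨1, ?_⟩⟩
  · have h4 := h2 j hj he x hx
    unfold cycOp at h4
    rw [← h4, h0]
  · rw [pow_one]
    exact h3 x hx

variable {pol : ∀ X : 𝒱.Obj, X.Cycles → Prop} {Pr : ℕ → 𝒱.Obj} {h : ∀ m, (Pr m).Cycles}

lemma signRegular_all (hP : PolClass W pol Pr h) (hS : HasSections W pol)
    (hC : ∀ X, SignStd W X) {X : 𝒱.Obj} {D : X.Cycles}
    (hD : pol X D) {c : ℕ} (hc : c ≤ X.dim) : SignRegular W X D c := by
  rcases Nat.eq_zero_or_pos c with rfl | hc0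
  · obtain ⟨z, hz, h1⟩ := (signStd_iff (W := W) X X.dim).1 (hC X)
    refine ⟨z, by rwa [Nat.sub_zero], fun j x hx => ?_⟩
    have h2 : W.cl X D ^ 0 * W.corr (W.cl _ z) (W.cl X D ^ 0 * x) =
        if Even (j + (X.dim - 0)) then 0 else W.cl X D ^ 0 * x := by
      rw [pow_zero, one_mul, one_mul, Nat.sub_zero]
      exact h1 j x hx
    exact h2
  rcases hc.eq_or_lt with rfl | hcn
  · refine ⟨0, SmVar.IsCyc.zero _ _, fun j x hx => ?_⟩
    have h3 : W.cl X D ^ X.dim * W.corr (W.cl _ 0) (W.cl X D ^ X.dim * x) =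
        if Even (j + (X.dim - X.dim)) then 0 else W.cl X D ^ X.dim * x := by
      rw [map_zero, corr_zero, LinearMap.zero_apply, mul_zero]
      split_ifs with hj
      · rfl
      · have h2 := pow_mul_mem (hP.div _ _ hD) X.dim hx
        have hj0 : j ≠ 0 := by
          rintro rfl
          exact hj (by simp)
        rw [W.gr_eq_bot X _ (by omega), Submodule.mem_bot] at h2
        exact h2.symm
    exact h3
  · obtain ⟨m, hm, Y, i, hY, hs, hg⟩ := hS X D hD (X.dim - c) (by omega) (by omega)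
    have hDm := hP.nsmul _ _ hD m hm
    have h2 := (sign_general hs (hP.div _ _ hDm) (hP.hard _ _ hDm) hg).1 (hC Y)
    rw [hY, show X.dim - (X.dim - c) = c by omega] at h2
    exact signRegular_of_nsmul hm h2

lemma PolClass.proj (hP : PolClass W pol Pr h) (m : ℕ) : IsProjLike W (Pr m) (h m) where
  div := hP.div_pr m
  deg := (hP.span_pr m).1
  span := (hP.span_pr m).2

/-- One step implies the weak condition in the middle degree for the other parity. -/
lemma midWeak_of_pol (hP : PolClass W pol Pr h) (q : ℕ → Prop)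
    (h1 : ∀ X D, pol X D → 1 ≤ X.dim → q X.dim → StepWeak W X D) {X : 𝒱.Obj}
    (hq : q (X.dim + 1)) : MidWeak W X := by
  obtain ⟨D, hD⟩ := hP.exists_div X
  have hdim : ((Pr 1).prod X).dim = X.dim + 1 := by rw [dim_prod, hP.dim_pr]; ring
  refine midWeak_of_step (hP.dim_pr 1) (hP.div_pr 1) ?_ (hP.div _ _ hD)
    (h1 _ _ (hP.prod _ _ hD) (by rw [hdim]; omega) (by rwa [hdim]))
  have := (hP.span_pr 1).1
  rwa [hP.dim_pr, pow_one] at this

/-- **One step is enough.** -/
theorem sign_of_step (hP : PolClass W pol Pr h) (h1 : StepOdd W pol ∨ StepEven W pol) :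
    ∀ X, SignStd W X := by
  have hall := (all_tfae (W := W) hP.dim_pr hP.proj (C := fun _ => True)
    (fun _ _ _ => trivial)).2.1
  rcases h1 with h1 | h1
  · have h2 : ForAll (fun _ : 𝒱.Obj => True) Even (MidWeak W) := fun X _ hX =>
      midWeak_of_pol hP Odd (fun X D hD _ ho => h1 X D hD ho) hX.add_one
    have h3 : ForAll (fun _ : 𝒱.Obj => True) (fun _ => True) (SignStd W) := (hall.out 2 0).1 h2
    exact fun X => h3 X trivial trivial
  · have h2 : ForAll (fun _ : 𝒱.Obj => True) Odd (MidWeak W) := fun X _ hX =>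
      midWeak_of_pol hP Even (fun X D hD h0 ho => h1 X D hD ho h0) hX.add_one
    have h3 : ForAll (fun _ : 𝒱.Obj => True) (fun _ => True) (SignStd W) := (hall.out 1 0).1 h2
    exact fun X => h3 X trivial trivial

/-- **The sign conjecture in a class of varieties.** -/
theorem class_tfae (hP : PolClass W pol Pr h) (hS : HasSections W pol) : List.TFAE [
    ∀ X, SignStd W X, RegularAll W pol, StepAll W pol, StepOdd W pol, StepEven W pol] := by
  tfae_have 1 → 2 := fun h X D hD c hc => signRegular_all hP hS h hD hc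
  tfae_have 2 → 3 := fun h X D hD h1 =>
    stepCycle_of_regular (hP.div _ _ hD) (hP.hard _ _ hD) h1 (h X D hD 1 h1)
  tfae_have 3 → 4 := fun h X D hD ho => stepWeak_of_cycle ho.pos (h X D hD ho.pos)
  tfae_have 3 → 5 := fun h X D hD _ h1 => stepWeak_of_cycle h1 (h X D hD h1)
  tfae_have 4 → 1 := fun h => sign_of_step hP (Or.inl h)
  tfae_have 5 → 1 := fun h => sign_of_step hP (Or.inr h)
  tfae_finish

end Pool.Agent.V5helper92.VC
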