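import Pool.Agent.V5helper92.VC.Reg
import Pool.Agent.H447R3.WtB
import Pool.Agent.X310.Mom4

/-!
# The sign conjecture and linear sections
-/

set_option autoImplicit false

open CategoryTheory AlgebraicGeometry Finset

universe u v

namespace Pool.Agent.V5helper92.VC

open Pool.Agent.H914 Pool.Agent.H447 Pool.Agent.W534 Pool.Agent.W537 Pool.Agent.N190.Lin VarClass Obj
  WeilCohomology

variable {k : Type u} [Field k] {𝒱 : VarClass k} {ops : CycleOps 𝒱}
  {W : WeilCohomology.{u, v} ops} {X Y Z : 𝒱.Obj} {D : X.Cycles} {i : Y ⟶ X}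

/-- The sign conjecture in terms of one of the two projectors. -/
theorem signStd_iff (X : 𝒱.Obj) (r : ℕ) : SignStd W X ↔
    ∃ z, (X.prod X).IsCyc X.dim z ∧ IsParityProj (W.gr X) r (W.corr (W.cl _ z)) := by
  rcases Nat.even_or_odd r with hr | hr
  · constructor
    · rintro ⟨P, hP, h⟩
      have h1 : ROp W X 0 (1 - W.corr (W.cl _ P)) :=
        rop_opAlg.sub rop_opAlg.one (rop_corr (by simp) hP)
      obtain ⟨z, hz, h2⟩ := exists_of_rop (p := X.dim) (by simp) h1
      refine ⟨z, hz, fun j y hy => ?_⟩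
      rw [h2, LinearMap.sub_apply, Module.End.one_apply, h j y hy]
      by_cases hj : Even j
      · simp [hj, hr, Nat.even_add]
      · simp [hj, hr, Nat.even_add]
    · rintro ⟨P, hP, h⟩
      have h1 : ROp W X 0 (1 - W.corr (W.cl _ P)) :=
        rop_opAlg.sub rop_opAlg.one (rop_corr (by simp) hP)
      obtain ⟨z, hz, h2⟩ := exists_of_rop (p := X.dim) (by simp) h1
      refine ⟨z, hz, fun j y hy => ?_⟩
      rw [h2, LinearMap.sub_apply, Module.End.one_apply, h j y hy]
      by_cases hj : Even j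
      · simp [hj, hr, Nat.even_add]
      · simp [hj, hr, Nat.even_add]
  · have hr' : ¬ Even r := Nat.not_even_iff_odd.2 hr
    constructor
    · rintro ⟨P, hP, h⟩
      refine ⟨P, hP, fun j y hy => ?_⟩
      rw [h j y hy]
      by_cases hj : Even j
      · simp [hj, hr', Nat.even_add]
      · simp [hj, hr', Nat.even_add]
    · rintro ⟨P, hP, h⟩
      refine ⟨P, hP, fun j y hy => ?_⟩
      rw [h j y hy]
      by_cases hj : Even j
      · simp [hj, hr', Nat.even_add]
      · simp [hj, hr', Nat.even_add]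

/-- **The sign conjecture for a general linear section.** -/
theorem sign_general (hs : IsLinearSection W D i) (hD : X.IsCyc 1 D) (hHL : HardLefschetz W X D)
    (hg : IsGeneral W i) : SignStd W Y ↔ SignRegular W X D (X.dim - Y.dim) := by
  rw [signStd_iff Y Y.dim, parity_iff hs hD hHL]
  constructor
  · rintro ⟨z, hz, h⟩
    obtain ⟨w, hw, h2⟩ := general_restr hs.le hg hz (fun v hv => by
      rw [h _ v hv.1, if_pos ⟨_, rfl⟩])
    refine ⟨w, hw, ?_⟩
    unfold RestrictsToSign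
    rw [h2]
    exact h
  · rintro ⟨w, hw, h⟩
    exact ⟨_, ops.pull_mem _ hw, h⟩

/-- Multiples of the divisor. -/
theorem signRegular_of_nsmul {m : ℕ} (hm : 0 < m) {c : ℕ} (h : SignRegular W X (m • D) c) :
    SignRegular W X D c := by
  obtain ⟨w, hw, h⟩ := h
  have hcl : W.cl X (m • D) = (m : W.K) • W.cl X D := by
    rw [map_nsmul, ← Nat.cast_smul_eq_nsmul W.K]
  have hm0 : ((m : W.K) ^ c) ≠ 0 := pow_ne_zero _ (by exact_mod_cast hm.ne')
  refine ⟨((m : ℚ) ^ c) • w, hw.smul _, fun j x hx => ?_⟩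
  have h1 : W.cl X (m • D) ^ c * W.corr (W.cl _ w) (W.cl X (m • D) ^ c * x) =
      if Even (j + (X.dim - c)) then 0 else W.cl X (m • D) ^ c * x := h j x hx
  rw [hcl, smul_pow, smul_mul_assoc, smul_mul_assoc, map_smul] at h1
  have e1 : W.corr (W.cl _ (((m : ℚ) ^ c) • w)) (W.cl X D ^ c * x) =
      ((m : W.K) ^ c) • W.corr (W.cl _ w) (W.cl X D ^ c * x) := by
    rw [cl_smul, corr_smul, LinearMap.smul_apply]
    push_cast
    rfl
  have h2 : W.cl X D ^ c * W.corr (W.cl _ (((m : ℚ) ^ c) • w)) (W.cl X D ^ c * x) =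
      if Even (j + (X.dim - c)) then 0 else W.cl X D ^ c * x := by
    rw [e1]
    split_ifs at h1 ⊢ with hj
    · exact (smul_eq_zero.1 h1).resolve_left hm0
    · exact smul_right_injective _ hm0 h1
  exact h2

/-- the degree of the operator of `w` -/
lemma reg_deg {c : ℕ} (hc : c ≤ X.dim) {w : (X.prod X).Cycles}
    (hw : (X.prod X).IsCyc (X.dim - c) w) :
    IsHom (W.gr X) (-(2 * (c : ℤ))) (W.corr (W.cl _ w)) := by
  have := W.corr_isHom (W.cl_mem hw)
  rwa [show 2 * (((X.dim - c : ℕ) : ℤ) - X.dim) = -(2 * (c : ℤ)) by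
    push_cast [hc]; ring] at this

lemma L_inj' (hHL : HardLefschetz W X D) {c q : ℕ} (hcq : q + c ≤ X.dim) {a : W.H X}
    (ha : a ∈ W.gr X q) (h0 : W.cl X D ^ c * a = 0) : a = 0 := by
  apply (hHL q (by omega)).1 a ha
  rw [pow_mul_eq] at h0
  rw [show X.dim - q = (X.dim - q - c) + c by omega, pow_add, Module.End.mul_apply, h0, map_zero]

lemma pow_mul_mem (hD : X.IsCyc 1 D) (c : ℕ) {q : ℕ} {a : W.H X} (ha : a ∈ W.gr X q) :
    W.cl X D ^ c * a ∈ W.gr X (q + 2 * c) := by
  rw [pow_mul_eq]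
  exact pow_L_mem (isHom_mulLeft W hD) ha c

/-- The inverses of the powers given by the regularity. -/
theorem signRegular_inv (hD : X.IsCyc 1 D) (hHL : HardLefschetz W X D) {c : ℕ} (hc : c ≤ X.dim)
    (h : SignRegular W X D c) : ∃ w, (X.prod X).IsCyc (X.dim - c) w ∧
      ∀ j, j + c ≤ X.dim → ∀ x ∈ W.gr X j, W.corr (W.cl _ w) (W.cl X D ^ c * x) =
        if Even (j + (X.dim - c)) then 0 else x := by
  obtain ⟨w, hw, h⟩ := h
  refine ⟨w, hw, fun j hj x hx => ?_⟩
  have h1 : W.cl X D ^ c * W.corr (W.cl _ w) (W.cl X D ^ c * x) =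
      if Even (j + (X.dim - c)) then 0 else W.cl X D ^ c * x := h j x hx
  have hm : W.corr (W.cl _ w) (W.cl X D ^ c * x) ∈ W.gr X j :=
    deg_ΓL (reg_deg hc hw) (pow_mul_mem hD c hx)
  split_ifs at h1 ⊢ with he
  · exact L_inj' hHL hj hm h1
  · rw [← sub_eq_zero]
    apply L_inj' hHL hj (Submodule.sub_mem _ hm hx)
    rw [mul_sub, h1, sub_self]

/-- Multiplication by the class of a divisor. -/
lemma qop_mulLeft (hD : X.IsCyc 1 D) : QOp W X X 1 (LinearMap.mulLeft W.K (W.cl X D)) :=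
  rop_iff.1 (rop_mulLeft hD)

/-- The image of the class of a cycle under an algebraic correspondence. -/
lemma corr_cycle {X Y : 𝒱.Obj} {p q r : ℕ} {w : (X.prod Y).Cycles} (hw : (X.prod Y).IsCyc q w)
    {z : X.Cycles} (hz : X.IsCyc p z) (h : p + q = r + X.dim) :
    ∃ z', Y.IsCyc r z' ∧ W.cl Y z' = W.corr (W.cl _ w) (W.cl X z) := by
  refine ⟨ops.push (snd X Y) (ops.mul w (ops.pull (fst X Y) z)),
    ops.push_mem _ (ops.mul_mem hw (ops.pull_mem _ hz)) (by rw [dim_prod]; omega), ?_⟩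
  rw [W.cl_push, W.cl_mul, W.cl_pull, corr_apply]

lemma divPow_mul (hD : X.IsCyc 1 D) (c : ℕ) {p : ℕ} {z : X.Cycles} (hz : X.IsCyc p z) :
    ∃ z', X.IsCyc (p + c) z' ∧ W.cl X z' = W.cl X D ^ c * W.cl X z := by
  induction c with
  | zero => exact ⟨z, hz, by rw [pow_zero, one_mul]⟩
  | succ c ih =>
    obtain ⟨z', hz', h⟩ := ih
    refine ⟨ops.mul D z', ?_, by rw [W.cl_mul, h, pow_succ', mul_assoc]⟩
    have := ops.mul_mem hD hz'
    rwa [show 1 + (p + c) = p + (c + 1) by ring] at this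

/-- **Algebraic classes.** -/
theorem algebraic_of_sign (hD : X.IsCyc 1 D) (hHL : HardLefschetz W X D) {r : ℕ}
    (hr : r ≤ X.dim) (ho : Odd r) (h : SignRegular W X D (X.dim - r)) :
    AlgebraicBelow W X D r := by
  intro p hp α hα hz
  obtain ⟨w, hw, h1⟩ := signRegular_inv hD hHL (by omega) h
  obtain ⟨z, hz, hzc⟩ := hz
  have hzc' : W.cl X z = W.cl X D ^ (X.dim - r) * α := hzc
  have hr' : X.dim - (X.dim - r) = r := by omega
  rw [hr'] at hw h1
  have h2 := h1 (2 * p) (by omega) α hα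
  rw [if_neg (by
    rw [Nat.odd_iff] at ho
    rw [Nat.even_iff]
    omega), ← hzc'] at h2
  obtain ⟨z'', hz'', h3⟩ := corr_cycle (W := W) (r := p) hw hz (by omega)
  exact ⟨z'', hz'', by rw [h3, h2]⟩

/-- **One linear section.** -/
theorem local_tfae (hs : IsLinearSection W D i) (hD : X.IsCyc 1 D) (hHL : HardLefschetz W X D) :
    List.TFAE [
      SignRegular W X D (X.dim - Y.dim),
      SignRestricted W i,
      SignRestrictedAll W X D Y.dim] := by
  tfae_have 1 → 3 := by
    rintro ⟨w, hw, h⟩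
    have hd : X.dim - (X.dim - Y.dim) = Y.dim := by have := hs.le; omega
    rw [hd] at hw h
    refine ⟨w, hw, fun Y' i' hY' hs' => ?_⟩
    refine (parity_one hs' hD hHL (by rwa [hY'])).1 ?_
    rw [hY']
    exact h
  tfae_have 3 → 2 := fun ⟨w, hw, h⟩ => ⟨w, hw, h Y i rfl hs⟩
  tfae_have 2 → 1 := (parity_iff hs hD hHL).2
  tfae_finish

/-- **The sign conjecture for a general section and the variety `X`.** -/
theorem local_general (hs : IsLinearSection W D i) (hD : X.IsCyc 1 D)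
    (hHL : HardLefschetz W X D) (hg : IsGeneral W i) (hC : SignStd W Y) :
    ParityInverse W X D Y.dim ∧ (Odd Y.dim → AlgebraicBelow W X D Y.dim) := by
  have h := (sign_general hs hD hHL hg).1 hC
  have hle := hs.le
  have hd : X.dim - (X.dim - Y.dim) = Y.dim := by omega
  refine ⟨?_, fun ho => algebraic_of_sign hD hHL hle ho h⟩
  obtain ⟨w, hw, h1⟩ := signRegular_inv hD hHL (by omega) h
  rw [hd] at hw h1
  exact ⟨w, hw, fun j hj x hx => h1 j (by omega) x hx⟩

end Pool.Agent.V5helper92.VC
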