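import Pool.Agent.V5helper92.VC.Defs
import Pool.Agent.N190.Lin.Geo

/-!
# Restrictions of correspondences to linear sections
-/

set_option autoImplicit false

open CategoryTheory AlgebraicGeometry Finset

universe u v

namespace Pool.Agent.V5helper92.VC

open Pool.Agent.H914 Pool.Agent.W534 Pool.Agent.N190.Lin VarClass Obj WeilCohomology

section Abs

variable {K : Type*} [Field K] {V U : Type*} [AddCommGroup V] [Module K V] [AddCommGroup U]
  [Module K U] {gr : ℕ → Submodule K V} {gr' : ℕ → Submodule K U} {r j : ℕ}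
  {L : Module.End K V} {M : Module.End K U} {ι : V →ₗ[K] U} {γ : U →ₗ[K] V}

/-- `Γ L ^ j` preserves the degrees -/
lemma deg_ΓL {gr : ℕ → Submodule K V} {j : ℕ} {Γ : Module.End K V}
    (hΓ : IsHom gr (-(2 * j : ℤ)) Γ) {q : ℕ} {x : V} (hx : x ∈ gr (q + 2 * j)) : Γ x ∈ gr q := by
  have h1 := hΓ ((q + 2 * j : ℕ) : ℤ) x (by rw [grZ_natCast]; exact hx)
  rwa [show ((q + 2 * j : ℕ) : ℤ) + -(2 * j : ℤ) = (q : ℤ) by push_cast; ring, grZ_natCast] at h1

/-- injectivity of `L ^ j` in degrees at most `r` -/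
lemma L_inj (h : LSec gr gr' r j L M ι γ) {q : ℕ} (hq : q ≤ r) {a : V} (ha : a ∈ gr q)
    (h0 : (L ^ j) a = 0) : a = 0 := by
  apply (h.hl q (by omega)).1 a ha
  rw [show r + j - q = (r - q) + j by omega, pow_add, Module.End.mul_apply, h0, map_zero]

/-- surjectivity of `L ^ j` onto the degrees at least `r + 2 j` -/
lemma L_surj (h : LSec gr gr' r j L M ι γ) {q : ℕ} (hq : r ≤ q) {b : V} (hb : b ∈ gr (q + 2 * j)) :
    ∃ a ∈ gr q, (L ^ j) a = b := by
  by_cases hq2 : q ≤ 2 * r + j * 1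
  · by_cases hbig : q + 2 * j ≤ 2 * (r + j)
    · obtain ⟨a, ha, hab⟩ := (h.hl (2 * (r + j) - (q + 2 * j)) (by omega)).2 b (by
        rwa [show 2 * (r + j) - (2 * (r + j) - (q + 2 * j)) = q + 2 * j by omega])
      have e : r + j - (2 * (r + j) - (q + 2 * j)) = j + (q - r) := by omega
      rw [e, pow_add, Module.End.mul_apply] at hab
      refine ⟨(L ^ (q - r)) a, ?_, hab⟩
      have := pow_L_mem h.hL ha (q - r)
      rwa [show 2 * (r + j) - (q + 2 * j) + 2 * (q - r) = q by omega] at this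
    · rw [h.bd _ (by omega), Submodule.mem_bot] at hb
      exact ⟨0, Submodule.zero_mem _, by rw [hb, map_zero]⟩
  · rw [h.bd _ (by omega), Submodule.mem_bot] at hb
    exact ⟨0, Submodule.zero_mem _, by rw [hb, map_zero]⟩

/-- the decomposition of the middle cohomology -/
lemma middle_dec (h : LSec gr gr' r j L M ι γ) {y : U} (hy : y ∈ gr' r) :
    ∃ x ∈ gr r, ∃ v ∈ gr' r, γ v = 0 ∧ y = ι x + v := by
  obtain ⟨x, hx, hxy⟩ := L_surj h le_rfl (h.hγ r y hy)
  refine ⟨x, hx, y - ι x, Submodule.sub_mem _ hy (h.hι r x hx), ?_, by abel⟩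
  rw [map_sub, h.γι, hxy, sub_self]

/-- from `X` to `Y` -/
lemma fwd (h : LSec gr gr' r j L M ι γ) {Γ : Module.End K V} (hΓ : IsHom gr (-(2 * j : ℤ)) Γ)
    (S : ℕ → Prop) [DecidablePred S]
    (h1 : ∀ q, ∀ x ∈ gr q, (L ^ j) (Γ ((L ^ j) x)) = if S q then 0 else (L ^ j) x) :
    (∀ q ≤ r, ∀ x ∈ gr q, ι (Γ (γ (ι x))) = if S q then 0 else ι x) ∧
      ∀ q, q ≠ r → ∀ y ∈ gr' q, ι (Γ (γ y)) = if S q then 0 else y := by
  have hA : ∀ q ≤ r, ∀ x ∈ gr q, ι (Γ (γ (ι x))) = if S q then 0 else ι x := by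
    intro q hq x hx
    have hm : Γ ((L ^ j) x) ∈ gr q := deg_ΓL hΓ (pow_L_mem h.hL hx j)
    rw [h.γι]
    by_cases hS : S q
    · rw [if_pos hS]
      have h2 := h1 q x hx
      rw [if_pos hS] at h2
      rw [L_inj h hq hm h2, map_zero]
    · rw [if_neg hS]
      have h2 := h1 q x hx
      rw [if_neg hS] at h2
      have h3 : Γ ((L ^ j) x) - x = 0 := by
        apply L_inj h hq (Submodule.sub_mem _ hm hx)
        rw [map_sub, h2, sub_self]
      rw [sub_eq_zero.1 h3]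
  refine ⟨hA, fun q hq y hy => ?_⟩
  rcases lt_or_gt_of_ne hq with hq | hq
  · obtain ⟨x, hx, rfl⟩ := h.surj q hq y hy
    exact hA q hq.le x hx
  · have hgy := h.hγ q y hy
    have hm : Γ (γ y) ∈ gr q := deg_ΓL hΓ hgy
    obtain ⟨x, hx, hxy⟩ := L_surj h hq.le hgy
    have h2 := h1 q x hx
    rw [hxy] at h2
    by_cases hS : S q
    · rw [if_pos hS] at h2 ⊢
      apply h.inj q hq _ (h.hι q _ hm)
      rw [h.γι, h2]
    · rw [if_neg hS] at h2 ⊢
      rw [← sub_eq_zero]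
      apply h.inj q hq _ (Submodule.sub_mem _ (h.hι q _ hm) hy)
      rw [map_sub, h.γι, h2, sub_self]

/-- from `Y` to `X` -/
lemma bwd (h : LSec gr gr' r j L M ι γ) {Γ : Module.End K V}
    (S : ℕ → Prop) [DecidablePred S]
    (h1 : ∀ x ∈ gr r, ι (Γ (γ (ι x))) = if S r then 0 else ι x)
    (h2 : ∀ q, q ≠ r → ∀ y ∈ gr' q, ι (Γ (γ y)) = if S q then 0 else y) :
    ∀ q, ∀ x ∈ gr q, (L ^ j) (Γ ((L ^ j) x)) = if S q then 0 else (L ^ j) x := by
  intro q x hx
  have h3 : ι (Γ (γ (ι x))) = if S q then 0 else ι x := by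
    by_cases hq : q = r
    · subst hq; exact h1 x hx
    · exact h2 q hq _ (h.hι q x hx)
  rw [h.γι] at h3
  rw [← h.γι (Γ ((L ^ j) x)), h3]
  split_ifs
  · rw [map_zero]
  · rw [h.γι]

/-- the middle degree -/
lemma middle_inv (h : LSec gr gr' r j L M ι γ) {Γ : Module.End K V}
    (hΓ : IsHom gr (-(2 * j : ℤ)) Γ) (h1 : ∀ x ∈ gr r, ι (Γ (γ (ι x))) = ι x) :
    ∀ x ∈ gr r, Γ ((L ^ j) x) = x := by
  intro x hx
  have h2 := h1 x hx
  rw [h.γι] at h2
  have h3 : Γ ((L ^ j) x) ∈ gr r := deg_ΓL hΓ (pow_L_mem h.hL hx j)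
  have h4 : ι (Γ ((L ^ j) x) - x) = 0 := by rw [map_sub, h2, sub_self]
  exact sub_eq_zero.1 (h.ι_inj le_rfl (Submodule.sub_mem _ h3 hx) h4)

end Abs

variable {k : Type u} [Field k] {𝒱 : VarClass k} {ops : CycleOps 𝒱}
  {W : WeilCohomology.{u, v} ops} {X Y Z : 𝒱.Obj}

lemma corr_kun (a : W.H X) {b : W.H Y} {j l : ℕ} (hb : b ∈ W.gr Y j) {x : W.H X}
    (hx : x ∈ W.gr X l) :
    W.corr (W.map (fst X Y) a * W.map (snd X Y) b) x =
      (-1 : W.K) ^ (j * l) • (W.tr X (a * x) • b) := by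
  rw [corr_apply, mul_assoc, W.comm (W.map_mem (snd X Y) hb) (W.map_mem (fst X Y) hx),
    mul_smul_comm, ← mul_assoc, ← map_mul, map_smul, push_snd]

/-- The morphism `i × i` from `Y × Y` to `X × X`. -/
noncomputable def sq {X Y : 𝒱.Obj} (i : Y ⟶ X) : Y.prod Y ⟶ X.prod X :=
  Obj.lift (fst Y Y ≫ i) (snd Y Y ≫ i)

/-- **The restriction of a correspondence from `X × X` to `Y × Y`.** -/
theorem corr_sq {i : Y ⟶ X} (hi : Y.dim ≤ X.dim) (c : W.H (X.prod X)) :
    W.corr (W.map (sq i) c) = (W.map i).toLinearMap ∘ₗ W.corr c ∘ₗ W.push i := by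
  refine W.kunneth_induction (p := fun c => W.corr (W.map (sq i) c) =
    (W.map i).toLinearMap ∘ₗ W.corr c ∘ₗ W.push i) ?_ ?_ c
  · intro a b ha hb
    rw [map_add, corr_add, ha, hb, corr_add, LinearMap.add_comp, LinearMap.comp_add]
  · intro p q a ha b hb
    apply gr_ext (W.isInternal Y)
    intro l y hy
    have e1 : sq i ≫ fst X X = fst Y Y ≫ i := Obj.lift_fst _ _
    have e2 : sq i ≫ snd X X = snd Y Y ≫ i := Obj.lift_snd _ _
    have hpy : W.push i y ∈ W.gr X (l + 2 * (X.dim - Y.dim)) := by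
      have := W.push_mem i hy
      rwa [show (l : ℤ) + 2 * ((X.dim : ℤ) - Y.dim) = ((l + 2 * (X.dim - Y.dim) : ℕ) : ℤ) by
        push_cast [hi]; ring, grZ_natCast] at this
    rw [map_mul, ← W.map_comp, ← W.map_comp, e1, e2, W.map_comp, W.map_comp,
      corr_kun _ (W.map_mem i hb) hy, LinearMap.comp_apply, LinearMap.comp_apply,
      corr_kun _ hb hpy, map_smul, map_smul, AlgHom.toLinearMap_apply]
    have e3 : (-1 : W.K) ^ (q * (l + 2 * (X.dim - Y.dim))) = (-1 : W.K) ^ (q * l) := by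
      rw [mul_add, pow_add, show q * (2 * (X.dim - Y.dim)) = 2 * (q * (X.dim - Y.dim)) by ring,
        pow_mul (-1 : W.K) 2, neg_one_sq, one_pow, mul_one]
    have e4 : W.tr X (a * W.push i y) = W.tr Y (W.map i a * y) := by
      rw [W.comm ha hpy, W.comm (W.map_mem i ha) hy, map_smul, map_smul, W.tr_push]
      congr 1
      rw [mul_add, pow_add, show p * (2 * (X.dim - Y.dim)) = 2 * (p * (X.dim - Y.dim)) by ring,
        pow_mul (-1 : W.K) 2, neg_one_sq, one_pow, mul_one]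
    rw [e3, e4]

end Pool.Agent.V5helper92.VC
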