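import Pool.Agent.N190.Lin.Defs
import Pool.Agent.H447R3.SpDefs
import Pool.Agent.H914R2.KDefs

/-!
# Vanishing cohomology of linear sections and correspondences: definitions
-/

set_option autoImplicit false

open CategoryTheory AlgebraicGeometry

universe u v

namespace Pool.Agent.V5helper92.VC

section Alg

variable {K : Type*} [Field K] {A : Type*} [AddCommGroup A] [Module K A] {B : Type*}
  [AddCommGroup B] [Module K B]

/-- `v` is an element of `gr r` which is killed by `g`. -/
def VanishesUnder (gr : ℕ → Submodule K B) (r : ℕ) (g : B →ₗ[K] A) (v : B) : Prop :=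
  v ∈ gr r ∧ g v = 0

/-- `T` kills the elements of `grB r` killed by `g`, and fixes `f x` for `x` in `grA r`. -/
def IsProjAlong (grA : ℕ → Submodule K A) (grB : ℕ → Submodule K B) (r : ℕ) (f : A →ₗ[K] B)
    (g : B →ₗ[K] A) (T : B →ₗ[K] B) : Prop :=
  (∀ v, VanishesUnder grB r g v → T v = 0) ∧ ∀ x ∈ grA r, T (f x) = f x

/-- `T` is the identity on `gr j` for all `j ≠ r`. -/
def FixesOthers (gr : ℕ → Submodule K B) (r : ℕ) (T : B →ₗ[K] B) : Prop :=
  ∀ j ≠ r, ∀ y ∈ gr j, T y = y

/-- `T` is the projector onto the sum of the spaces `gr j` with `j` not congruent to `r` modulo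
`2`. -/
def IsParityProj (gr : ℕ → Submodule K B) (r : ℕ) (T : B →ₗ[K] B) : Prop :=
  ∀ j, ∀ y ∈ gr j, T y = if Even (j + r) then 0 else y

/-- `L G L = L`. -/
def RegularPair (L G : B →ₗ[K] B) : Prop := ∀ x, L (G (L x)) = L x

/-- `L G L` is equal to `L` on `gr j` if `j` and `r` have different parities, and zero if they have the
same parity. -/
def SignRegularPair (gr : ℕ → Submodule K B) (r : ℕ) (L G : B →ₗ[K] B) : Prop :=
  ∀ j, ∀ x ∈ gr j, L (G (L x)) = if Even (j + r) then 0 else L x

/-- `G L` is the identity on `gr j` for `j ≤ r` of different parity from `r`, and zero on `gr j` for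
`j ≤ r` of the same parity as `r`. -/
def InversePair (gr : ℕ → Submodule K B) (r : ℕ) (L G : B →ₗ[K] B) : Prop :=
  ∀ j ≤ r, ∀ x ∈ gr j, G (L x) = if Even (j + r) then 0 else x

end Alg

open Pool.Agent.H914 Pool.Agent.H447 Pool.Agent.W537 Pool.Agent.N190.Lin VarClass Obj
  WeilCohomology

variable {k : Type u} [Field k] {𝒱 : VarClass k} {ops : CycleOps 𝒱}

/-- The restriction of the cycle `w` on `X × X` to `Y × Y`, the pull-back by `i × i`. -/
noncomputable def restr (ops : CycleOps 𝒱) {X Y : 𝒱.Obj} (i : Y ⟶ X) (w : (X.prod X).Cycles) :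
    (Y.prod Y).Cycles :=
  ops.pull (Obj.lift (fst Y Y ≫ i) (snd Y Y ≫ i)) w

/-- The diagonal of `Y`. -/
noncomputable def diagCyc (ops : CycleOps 𝒱) (Y : 𝒱.Obj) : (Y.prod Y).Cycles :=
  ops.push (Obj.diag Y) Y.V.fundCycle

/-- The pull-back in cohomology as a linear map. -/
noncomputable def pullOp (W : WeilCohomology.{u, v} ops) {X Y : 𝒱.Obj} (i : Y ⟶ X) :
    W.H X →ₗ[W.K] W.H Y :=
  (W.map i).toLinearMap

/-- The middle cohomology `H^r(Y)`, `r = dim Y`, has a vanishing class `≠ 0`: a class `v` with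
`i_* v = 0`. -/
def HasVanishing (W : WeilCohomology.{u, v} ops) {X Y : 𝒱.Obj} (i : Y ⟶ X) : Prop :=
  ∃ v, VanishesUnder (W.gr Y) Y.dim (W.push i) v ∧ v ≠ 0

/-- The class of the cycle `z` on `Y × Y` is the sum of `q` times the class of the diagonal and the
restriction of the class of the cycle `w` on `X × X`. -/
def IsCombination (W : WeilCohomology.{u, v} ops) {X Y : 𝒱.Obj} (i : Y ⟶ X)
    (z : (Y.prod Y).Cycles) (q : ℚ) (w : (X.prod X).Cycles) : Prop :=
  W.cl (Y.prod Y) z = W.cl (Y.prod Y) (q • diagCyc ops Y + restr ops i w)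

/-- The section `Y` behaves like a very general one: it has a nonzero vanishing class, and the class
of every cycle of codimension `dim Y` on `Y × Y` is the sum of a rational multiple of the class of
the diagonal and the restriction of the class of a cycle on `X × X`. -/
structure IsGeneral (W : WeilCohomology.{u, v} ops) {X Y : 𝒱.Obj} (i : Y ⟶ X) : Prop where
  vanishing : HasVanishing W i
  classes : ∀ z, (Y.prod Y).IsCyc Y.dim z → ∃ (q : ℚ) (w : (X.prod X).Cycles),
    (X.prod X).IsCyc Y.dim w ∧ IsCombination W i z q w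

/-- The operator `T` on `H(Y)` acts on the middle cohomology `H^r(Y)`, `r = dim Y`, as the projector
onto the image of `H^r(X)` along the vanishing cohomology (the kernel of `i_*`). -/
def IsMiddleProj (W : WeilCohomology.{u, v} ops) {X Y : 𝒱.Obj} (i : Y ⟶ X)
    (T : W.H Y →ₗ[W.K] W.H Y) : Prop :=
  IsProjAlong (W.gr X) (W.gr Y) Y.dim (pullOp W i) (W.push i) T

/-- The power `ξ ^ c` of the class `ξ` of `D` is regular in the sense of von Neumann in the
ring of algebraic correspondences: there is a cycle `w` of codimension `dim X - c` on `X × X` which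
induces an operator `Γ` with `ξ ^ c Γ ξ ^ c = ξ ^ c`. -/
def LefRegular (W : WeilCohomology.{u, v} ops) (X : 𝒱.Obj) (D : X.Cycles) (c : ℕ) : Prop :=
  ∃ w, (X.prod X).IsCyc (X.dim - c) w ∧ RegularPair (lefPow W X D c) (cycOp W X w)

/-- The same in the degrees `j` which are not congruent to `dim X - c` modulo `2`, and zero in the
other degrees: there is a cycle `w` of codimension `dim X - c` on `X × X` which induces an operator
`Γ` such that `ξ ^ c Γ ξ ^ c` is equal to `ξ ^ c` on `H^j(X)` if `j` and `dim X - c` have different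
parities, and to `0` otherwise. -/
def SignRegular (W : WeilCohomology.{u, v} ops) (X : 𝒱.Obj) (D : X.Cycles) (c : ℕ) : Prop :=
  ∃ w, (X.prod X).IsCyc (X.dim - c) w ∧
    SignRegularPair (W.gr X) (X.dim - c) (lefPow W X D c) (cycOp W X w)

/-- The restriction of the cycle `w` from `X × X` to `Y × Y` acts on `H^r(Y)`, `r = dim Y`, as the
projector onto the image of `H^r(X)` along the vanishing cohomology. -/
def RestrictsToMiddle (W : WeilCohomology.{u, v} ops) {X Y : 𝒱.Obj} (i : Y ⟶ X)
    (w : (X.prod X).Cycles) : Prop :=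
  IsMiddleProj W i (cycOp W Y (restr ops i w))

/-- Some cycle of codimension `r = dim Y` on `X × X` restricts to a correspondence on `Y` which acts
on `H^r(Y)` as the projector onto the image of `H^r(X)` along the vanishing cohomology. -/
def MiddleRestricted (W : WeilCohomology.{u, v} ops) {X Y : 𝒱.Obj} (i : Y ⟶ X) : Prop :=
  ∃ w, (X.prod X).IsCyc Y.dim w ∧ RestrictsToMiddle W i w

/-- The projector of `H(Y)` along the vanishing cohomology (the identity in the degrees other than
`r = dim Y` and on the image of `H^r(X)`) is the restriction of a cycle of codimension `r` on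
`X × X`. -/
def FixedRestricted (W : WeilCohomology.{u, v} ops) {X Y : 𝒱.Obj} (i : Y ⟶ X) : Prop :=
  ∃ w, (X.prod X).IsCyc Y.dim w ∧ RestrictsToMiddle W i w ∧
    FixesOthers (W.gr Y) Y.dim (cycOp W Y (restr ops i w))

/-- Some cycle on `Y × Y` acts on the middle cohomology of `Y` as the projector onto the image
of the cohomology of `X` along the vanishing cohomology. -/
def MiddleAlgebraic (W : WeilCohomology.{u, v} ops) {X Y : 𝒱.Obj} (i : Y ⟶ X) : Prop :=
  ∃ z, (Y.prod Y).IsCyc Y.dim z ∧ IsMiddleProj W i (cycOp W Y z)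

/-- The projector of `H(Y)` along the vanishing cohomology is induced by a cycle on `Y × Y`. (This
is equivalent to the algebraicity of the complementary projector, onto the vanishing
cohomology.) -/
def FixedAlgebraic (W : WeilCohomology.{u, v} ops) {X Y : 𝒱.Obj} (i : Y ⟶ X) : Prop :=
  ∃ z, (Y.prod Y).IsCyc Y.dim z ∧ IsMiddleProj W i (cycOp W Y z) ∧
    FixesOthers (W.gr Y) Y.dim (cycOp W Y z)

/-- The restriction of the cycle `w` from `X × X` to `Y × Y` acts as the projector onto the
cohomology of `Y` in the degrees which are not congruent to `dim Y` modulo `2`. -/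
def RestrictsToSign (W : WeilCohomology.{u, v} ops) {X Y : 𝒱.Obj} (i : Y ⟶ X)
    (w : (X.prod X).Cycles) : Prop :=
  IsParityProj (W.gr Y) Y.dim (cycOp W Y (restr ops i w))

/-- The projector onto the cohomology of `Y` in the degrees which are not congruent to `dim Y`
modulo `2` is the restriction of a cycle on `X × X`. -/
def SignRestricted (W : WeilCohomology.{u, v} ops) {X Y : 𝒱.Obj} (i : Y ⟶ X) : Prop :=
  ∃ w, (X.prod X).IsCyc Y.dim w ∧ RestrictsToSign W i w

/-- One cycle on `X × X` restricts to this projector for all linear sections of dimension `r`. -/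
def SignRestrictedAll (W : WeilCohomology.{u, v} ops) (X : 𝒱.Obj) (D : X.Cycles) (r : ℕ) : Prop :=
  ∃ w, (X.prod X).IsCyc r w ∧ ∀ (Y : 𝒱.Obj) (i : Y ⟶ X), Y.dim = r →
    IsLinearSection W D i → RestrictsToSign W i w

/-- Some cycle of codimension `r` on `X × X` maps `ξ ^ (n - r) x` to `x` for `x` in `H^j(X)`, `j ≤ r`,
`j` and `r` of different parity, and to zero for `j ≤ r` of the same parity as `r`; here
`n = dim X` and `ξ` is the class of `D`. -/
def ParityInverse (W : WeilCohomology.{u, v} ops) (X : 𝒱.Obj) (D : X.Cycles) (r : ℕ) : Prop :=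
  ∃ w, (X.prod X).IsCyc r w ∧
    InversePair (W.gr X) r (lefPow W X D (X.dim - r)) (cycOp W X w)

/-- `α` is the class of a cycle of codimension `p` on `X`. -/
def IsAlgebraic (W : WeilCohomology.{u, v} ops) (X : 𝒱.Obj) (p : ℕ) (α : W.H X) : Prop :=
  ∃ z, X.IsCyc p z ∧ W.cl X z = α

/-- For `2 p < r` a class `α` in `H^(2p)(X)` is algebraic if `ξ ^ (n - r) α` is algebraic; here
`n = dim X` and `ξ` is the class of `D`. -/
def AlgebraicBelow (W : WeilCohomology.{u, v} ops) (X : 𝒱.Obj) (D : X.Cycles) (r : ℕ) : Prop :=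
  ∀ p, 2 * p < r → ∀ α ∈ W.gr X (2 * p),
    IsAlgebraic W X (p + (X.dim - r)) (lefPow W X D (X.dim - r) α) → IsAlgebraic W X p α

/-- Linear sections `i r : Y r ⟶ X` of all dimensions `1 ≤ r < dim X`. -/
def AreSections (W : WeilCohomology.{u, v} ops) {X : 𝒱.Obj} (D : X.Cycles) {Y : ℕ → 𝒱.Obj}
    (i : ∀ r, Y r ⟶ X) : Prop :=
  ∀ r ∈ Set.Icc 1 (X.dim - 1), (Y r).dim = r ∧ IsLinearSection W D (i r)

/-- `S r` holds for all `1 ≤ r < dim X`. -/
def ForEach (X : 𝒱.Obj) (S : ℕ → Prop) : Prop := ∀ r ∈ Set.Icc 1 (X.dim - 1), S r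

end Pool.Agent.V5helper92.VC
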