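import Pool.Agent.V5helper92.VC.Core
import Pool.Agent.H914R2.KLef
import Pool.Agent.W534.QOp

/-!
# Regular powers of the Lefschetz operator and linear sections
-/

set_option autoImplicit false

open CategoryTheory AlgebraicGeometry Finset

universe u v

namespace Pool.Agent.V5helper92.VC

open Pool.Agent.H914 Pool.Agent.W534 Pool.Agent.W537 Pool.Agent.N190.Lin VarClass Obj WeilCohomology

variable {k : Type u} [Field k] {𝒱 : VarClass k} {ops : CycleOps 𝒱}
  {W : WeilCohomology.{u, v} ops} {X Y Z : 𝒱.Obj} {D : X.Cycles} {i : Y ⟶ X}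

lemma pow_mul_eq (c : ℕ) (x : W.H X) :
    W.cl X D ^ c * x = (LinearMap.mulLeft W.K (W.cl X D) ^ c) x := by
  rw [LinearMap.pow_mulLeft, LinearMap.mulLeft_apply]

lemma corr_deg (hs : Y.dim ≤ X.dim) {w : (X.prod X).Cycles} (hw : (X.prod X).IsCyc Y.dim w) :
    IsHom (W.gr X) (-(2 * ((X.dim - Y.dim : ℕ) : ℤ))) (W.corr (W.cl _ w)) := by
  have := W.corr_isHom (W.cl_mem hw)
  rwa [show 2 * ((Y.dim : ℤ) - X.dim) = -(2 * ((X.dim - Y.dim : ℕ) : ℤ)) by
    push_cast [hs]; ring] at this

lemma corr_pull_sq (hs : Y.dim ≤ X.dim) (w : (X.prod X).Cycles) (y : W.H Y) :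
    W.corr (W.cl _ (ops.pull (sq i) w)) y = W.map i (W.corr (W.cl _ w) (W.push i y)) := by
  rw [W.cl_pull, corr_sq hs]
  rfl

/-- **The correspondence between `X` and its linear section.** -/
theorem section_iff (hs : IsLinearSection W D i) (hD : X.IsCyc 1 D) (hHL : HardLefschetz W X D)
    (S : ℕ → Prop) [DecidablePred S] {w : (X.prod X).Cycles} (hw : (X.prod X).IsCyc Y.dim w) :
    (∀ q, ∀ x ∈ W.gr X q, W.cl X D ^ (X.dim - Y.dim) *
        W.corr (W.cl _ w) (W.cl X D ^ (X.dim - Y.dim) * x) =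
          if S q then 0 else W.cl X D ^ (X.dim - Y.dim) * x) ↔
      (∀ x ∈ W.gr X Y.dim, W.corr (W.cl _ (ops.pull (sq i) w)) (W.map i x) =
        if S Y.dim then 0 else W.map i x) ∧
      ∀ q, q ≠ Y.dim → ∀ y ∈ W.gr Y q, W.corr (W.cl _ (ops.pull (sq i) w)) y =
        if S q then 0 else y := by
  have h := hs.lsec hD hHL
  simp only [pow_mul_eq, corr_pull_sq hs.le]
  constructor
  · intro h1
    obtain ⟨h2, h3⟩ := fwd h (corr_deg hs.le hw) S h1
    exact ⟨fun x hx => h2 _ le_rfl x hx, fun q hq y hy => h3 q hq y hy⟩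
  · rintro ⟨h1, h2⟩
    exact bwd h S h1 h2

/-- every restricted correspondence kills the vanishing classes -/
lemma corr_vanishing (hs : Y.dim ≤ X.dim) (w : (X.prod X).Cycles) {v : W.H Y}
    (hv : VanishesUnder (W.gr Y) Y.dim (W.push i) v) :
    W.corr (W.cl _ (ops.pull (sq i) w)) v = 0 := by
  rw [corr_pull_sq hs, hv.2, map_zero, map_zero]

theorem fixed_iff (hs : IsLinearSection W D i) (hD : X.IsCyc 1 D) (hHL : HardLefschetz W X D) :
    LefRegular W X D (X.dim - Y.dim) ↔ FixedRestricted W i := by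
  have hd : X.dim - (X.dim - Y.dim) = Y.dim := by have := hs.le; omega
  unfold LefRegular FixedRestricted
  rw [hd]
  apply exists_congr
  intro w
  apply and_congr_right
  intro hw
  have key := section_iff hs hD hHL (fun _ => False) hw
  simp only [if_false] at key
  constructor
  · intro h1
    obtain ⟨h2, h3⟩ := key.1 (fun q x _ => h1 x)
    exact ⟨⟨fun v hv => corr_vanishing hs.le w hv, h2⟩, h3⟩
  · intro h1 x
    have h2 := key.2 ⟨h1.1.2, h1.2⟩
    refine gr_induction (W.isInternal X) (p := fun x => W.cl X D ^ (X.dim - Y.dim) *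
      W.corr (W.cl _ w) (W.cl X D ^ (X.dim - Y.dim) * x) = W.cl X D ^ (X.dim - Y.dim) * x)
      ?_ ?_ x
    · exact h2
    · intro a b ha hb
      rw [mul_add, map_add, mul_add, ha, hb]

/-- A cycle which induces the regularity restricts to the projector on all sections. -/
theorem parity_one (hs : IsLinearSection W D i) (hD : X.IsCyc 1 D) (hHL : HardLefschetz W X D)
    {w : (X.prod X).Cycles} (hw : (X.prod X).IsCyc Y.dim w) :
    SignRegularPair (W.gr X) Y.dim (lefPow W X D (X.dim - Y.dim)) (cycOp W X w) ↔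
      RestrictsToSign W i w := by
  have key := section_iff hs hD hHL (fun q => Even (q + Y.dim)) hw
  have hev : Even (Y.dim + Y.dim) := ⟨_, rfl⟩
  constructor
  · intro h q y hy
    obtain ⟨h2, h3⟩ := key.1 h
    by_cases hq : q = Y.dim
    · subst hq
      rw [if_pos hev]
      obtain ⟨x, hx, v, hv, hv0, rfl⟩ := middle_dec (hs.lsec hD hHL) hy
      have h4 := h2 x hx
      rw [if_pos hev] at h4
      have h5 : W.corr (W.cl _ (ops.pull (sq i) w)) v = 0 := corr_vanishing hs.le w ⟨hv, hv0⟩
      have h6 : W.corr (W.cl _ (ops.pull (sq i) w)) ((W.map i) x + v) = 0 := by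
        rw [map_add, h5, add_zero]
        exact h4
      exact h6
    · exact h3 q hq y hy
  · intro h1
    exact key.2 ⟨fun x hx => h1 _ _ (W.map_mem i hx), fun q _ y hy => h1 q y hy⟩

theorem parity_iff (hs : IsLinearSection W D i) (hD : X.IsCyc 1 D) (hHL : HardLefschetz W X D) :
    SignRegular W X D (X.dim - Y.dim) ↔ SignRestricted W i := by
  have hd : X.dim - (X.dim - Y.dim) = Y.dim := by have := hs.le; omega
  unfold SignRegular SignRestricted
  rw [hd]
  exact exists_congr fun w => and_congr_right fun hw => parity_one hs hD hHL hw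

/-- A correspondence on a general section which kills the vanishing classes is the restriction of a
correspondence on `X`. -/
theorem general_restr (hi : Y.dim ≤ X.dim) (hg : IsGeneral W i) {z : (Y.prod Y).Cycles}
    (hz : (Y.prod Y).IsCyc Y.dim z)
    (h0 : ∀ v, VanishesUnder (W.gr Y) Y.dim (W.push i) v → W.corr (W.cl _ z) v = 0) :
    ∃ w, (X.prod X).IsCyc Y.dim w ∧ cycOp W Y (restr ops i w) = cycOp W Y z := by
  obtain ⟨v, hv, hv0⟩ := hg.vanishing
  obtain ⟨q, w, hw, hzw⟩ := hg.classes z hz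
  have hdiag : W.corr (W.cl _ (ops.push (Obj.diag Y) Y.V.fundCycle)) = LinearMap.id := by
    apply LinearMap.ext
    intro a
    rw [W.cl_push, W.corr_diag, W.cl_fund, one_mul, LinearMap.id_apply]
  have hzw' : W.cl (Y.prod Y) z = W.cl (Y.prod Y)
      (q • ops.push (Obj.diag Y) Y.V.fundCycle + ops.pull (sq i) w) := hzw
  have h1 : W.corr (W.cl _ z) = (q : W.K) • LinearMap.id + W.corr (W.cl _ (ops.pull (sq i) w)) := by
    rw [hzw', map_add, cl_smul, corr_add, corr_smul, hdiag]
  have h2 : (q : W.K) • v = 0 := by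
    have h3 := h0 v hv
    rw [h1, LinearMap.add_apply, corr_vanishing hi w hv, add_zero] at h3
    simpa using h3
  have hq : (q : W.K) = 0 := by
    rcases smul_eq_zero.1 h2 with h | h
    · exact h
    · exact absurd h hv0
  refine ⟨w, hw, ?_⟩
  have h4 : W.corr (W.cl _ (ops.pull (sq i) w)) = W.corr (W.cl _ z) := by
    rw [h1, hq, zero_smul, zero_add]
  exact h4

end Pool.Agent.V5helper92.VC
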